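import Mathlib
import Pool.Agent.W448.FF.Stmts

/-!
Project FF: the robust sink lemma.
-/

set_option autoImplicit false

namespace Pool.Agent.W540.FF

open Finset Pool.Agent.W448.FF

/-- the final real inequality -/
lemma real_fin (a b σ x y : ℝ) (hx : 0 ≤ x) (hy : 0 ≤ y) (hxy : x + y ≤ σ)
    (hab : b ≤ a) (hb0 : 0 ≤ b) (hbσ : b ≤ σ ^ 2) (hs : a + σ ^ 2 < 1 / 2)
    (h : (1 - x) ^ 2 * (1 - a - y) ≤ b / 2) : False := by
  have hσ0 : 0 ≤ σ := by linarith
  have ha0 : 0 ≤ a := hb0.trans hab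
  have hσ2 : σ ^ 2 < 1 / 2 := by linarith
  have hσ1 : σ < 1 := by nlinarith
  have hx1 : x < 1 := by linarith
  set A' : ℝ := 1 - a - σ with hA'
  have hphi : (1 - x) ^ 2 * (A' + x) ≤ (1 - x) ^ 2 * (1 - a - y) :=
    mul_le_mul_of_nonneg_left (by rw [hA']; linarith) (by positivity)
  have h0 : b / 2 < A' := by nlinarith [sq_nonneg (1 - σ)]
  have hσ : b / 2 < (1 - σ) ^ 2 * (1 - a) := by
    have e1 : (1 - σ) ^ 2 * (1 / 2 + σ ^ 2) ≤ (1 - σ) ^ 2 * (1 - a) :=
      mul_le_mul_of_nonneg_left (by linarith) (by positivity)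
    have e2 : (1 - σ) ^ 2 * (1 / 2 + σ ^ 2) =
        (1 / 2 - σ ^ 2) / 2 + (σ ^ 2 - σ + 1 / 2) ^ 2 := by ring
    have e3 : 0 ≤ (σ ^ 2 - σ + 1 / 2) ^ 2 := by positivity
    linarith
  rcases le_or_gt 0 ((1 - x) ^ 2 - A' * (2 - x)) with hq | hq
  · have e1 : (1 - x) ^ 2 * (A' + x) - A' = x * ((1 - x) ^ 2 - A' * (2 - x)) := by ring
    have e2 : 0 ≤ x * ((1 - x) ^ 2 - A' * (2 - x)) := mul_nonneg hx hq
    linarith
  · have e1 : (1 - x) ^ 2 * (A' + x) - (1 - σ) ^ 2 * (A' + σ) =
        (σ - x) * (-((1 - x) ^ 2 - A' * (2 - x)) + σ * (1 + a - x)) := by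
      rw [hA']; ring
    have e2 : 0 ≤ (σ - x) * (-((1 - x) ^ 2 - A' * (2 - x)) + σ * (1 + a - x)) := by
      refine mul_nonneg (by linarith) ?_
      have : 0 ≤ σ * (1 + a - x) := mul_nonneg hσ0 (by linarith)
      linarith
    have e3 : A' + σ = 1 - a := by rw [hA']; ring
    rw [e3] at e1
    linarith

section order
variable {V : Type} [LinearOrder V]

lemma lemI (w : V → ℝ) (hw : ∀ v, 0 ≤ w v) (s : ℝ) (hs : 0 ≤ s) (S : Finset V) :
    (s ^ 2 - (max (s - ∑ v ∈ S, w v) 0) ^ 2) / 2 ≤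
      ∑ b ∈ S, w b * max (s - ∑ v ∈ S.filter (fun v => v < b), w v) 0 := by
  induction S using Finset.induction_on_max with
  | empty => simp [hs]
  | insert a S ha ih =>
    have haS : a ∉ S := fun h => lt_irrefl _ (ha a h)
    rw [Finset.sum_insert haS, Finset.sum_insert haS]
    have e1 : (insert a S).filter (fun v => v < a) = S := by
      ext v
      simp only [Finset.mem_filter, Finset.mem_insert]
      constructor
      · rintro ⟨h1 | h1, h2⟩
        · exact absurd h2 (by rw [h1]; exact lt_irrefl _)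
        · exact h1
      · intro h
        exact ⟨Or.inr h, ha v h⟩
    have e2 : ∑ b ∈ S, w b * max (s - ∑ v ∈ (insert a S).filter (fun v => v < b), w v) 0 =
        ∑ b ∈ S, w b * max (s - ∑ v ∈ S.filter (fun v => v < b), w v) 0 := by
      refine Finset.sum_congr rfl fun b hb => ?_
      have e3 : (insert a S).filter (fun v => v < b) = S.filter (fun v => v < b) := by
        ext v
        simp only [Finset.mem_filter, Finset.mem_insert]
        constructor
        · rintro ⟨h1 | h1, h2⟩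
          · exact absurd h2 (by rw [h1]; exact not_lt.mpr (ha b hb).le)
          · exact ⟨h1, h2⟩
        · rintro ⟨h1, h2⟩
          exact ⟨Or.inr h1, h2⟩
      rw [e3]
    rw [e1, e2]
    set W := ∑ v ∈ S, w v with hW
    set u := max (s - W) 0 with hu
    set u' := max (s - (w a + W)) 0 with hu'
    have hu0 : 0 ≤ u := le_max_right _ _
    have hu'0 : 0 ≤ u' := le_max_right _ _
    have h1 : u' ≤ u := max_le_max (by linarith [hw a]) le_rfl
    have h2 : u - u' ≤ w a := by
      have h3 : s - (w a + W) ≤ u' := le_max_left _ _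
      have h4 : u ≤ u' + w a := max_le (by linarith) (by linarith [hw a])
      linarith
    have h5 : (u - u') * (u + u') ≤ w a * (2 * u) :=
      mul_le_mul h2 (by linarith) (by linarith) (hw a)
    have h6 : (u ^ 2 - u' ^ 2) = (u - u') * (u + u') := by ring
    linarith

lemma exists_b0 (B : Finset V) (w f : V → ℝ) (hw : ∀ v, 0 ≤ w v) (hf : ∀ v ∈ B, 0 ≤ f v)
    (s : ℝ) (hs0 : 0 ≤ s) (hsB : s < ∑ v ∈ B, w v) (hsum : ∑ b ∈ B, w b * f b ≤ s ^ 2 / 2)
    (hB : B.Nonempty) :
    ∃ b0 ∈ B, ∑ v ∈ B.filter (fun v => v < b0), w v + f b0 ≤ s := by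
  by_contra hcon
  push Not at hcon
  obtain ⟨b1, hb1, hmin⟩ := B.exists_min_image
    (fun b => ∑ v ∈ B.filter (fun v => v < b), w v + f b) hB
  set s' := min (∑ v ∈ B.filter (fun v => v < b1), w v + f b1) (∑ v ∈ B, w v) with hs'
  have h1 : s < s' := lt_min (hcon b1 hb1) hsB
  have h2 : s' ≤ ∑ v ∈ B, w v := min_le_right _ _
  have h3 := lemI w hw s' (hs0.trans h1.le) B
  have h4 : max (s' - ∑ v ∈ B, w v) 0 = 0 := max_eq_right (by linarith)
  rw [h4] at h3
  have h5 : ∑ b ∈ B, w b * max (s' - ∑ v ∈ B.filter (fun v => v < b), w v) 0 ≤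
      ∑ b ∈ B, w b * f b := by
    refine Finset.sum_le_sum fun b hb => mul_le_mul_of_nonneg_left ?_ (hw b)
    refine max_le ?_ (hf b hb)
    have h6 : s' ≤ ∑ v ∈ B.filter (fun v => v < b), w v + f b :=
      (min_le_left _ _).trans (hmin b hb)
    linarith
  nlinarith

lemma half_sum (B : Finset V) (w : V → ℝ) (hw : ∀ v, 0 ≤ w v) (c : V → V → ℝ)
    (hc : ∀ u v, 0 ≤ c u v) (hsymm : ∀ u v, c u v = c v u) :
    2 * ∑ b ∈ B, w b * ∑ v ∈ B.filter (fun v => b < v), w v * c b v ≤
      ∑ b ∈ B, ∑ v ∈ B, w b * w v * c b v := by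
  have e1 : ∑ b ∈ B, w b * ∑ v ∈ B.filter (fun v => b < v), w v * c b v =
      ∑ b ∈ B, ∑ v ∈ B, if b < v then w b * w v * c b v else 0 := by
    refine Finset.sum_congr rfl fun b _ => ?_
    rw [Finset.mul_sum, Finset.sum_filter]
    refine Finset.sum_congr rfl fun v _ => ?_
    split_ifs
    · ring
    · rfl
  have e2 : ∑ b ∈ B, ∑ v ∈ B, (if b < v then w b * w v * c b v else 0) =
      ∑ b ∈ B, ∑ v ∈ B, (if v < b then w b * w v * c b v else 0) := by
    rw [Finset.sum_comm]
    refine Finset.sum_congr rfl fun b _ => Finset.sum_congr rfl fun v _ => ?_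
    split_ifs
    · rw [hsymm v b]; ring
    · rfl
  have e3 : 2 * ∑ b ∈ B, w b * ∑ v ∈ B.filter (fun v => b < v), w v * c b v =
      ∑ b ∈ B, ∑ v ∈ B, ((if b < v then w b * w v * c b v else 0) +
        (if v < b then w b * w v * c b v else 0)) := by
    simp_rw [Finset.sum_add_distrib]
    rw [← e2, e1]
    ring
  rw [e3]
  refine Finset.sum_le_sum fun b _ => Finset.sum_le_sum fun v _ => ?_
  have h0 : 0 ≤ w b * w v * c b v := mul_nonneg (mul_nonneg (hw b) (hw v)) (hc b v)
  rcases lt_trichotomy b v with h | h | h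
  · simp [h, not_lt.mpr h.le]
  · rw [if_neg (by rw [h]; exact lt_irrefl _), if_neg (by rw [h]; exact lt_irrefl _), add_zero]
    exact h0
  · simp [h, not_lt.mpr h.le]

end order

section basic
variable {V : Type} (G : OG V)

lemma nn_nonneg (u v : V) : 0 ≤ nn G u v := by unfold nn; split_ifs <;> norm_num

lemma nn_le_one (u v : V) : nn G u v ≤ 1 := by unfold nn; split_ifs <;> norm_num

lemma adj_comm (u v : V) : G.adj u v ↔ G.adj v u := by
  unfold OG.adj
  exact Or.comm

lemma nn_symm (u v : V) : nn G u v = nn G v u := by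
  unfold nn
  by_cases h : G.adj u v
  · rw [if_pos h, if_pos ((adj_comm G u v).mp h)]
  · rw [if_neg h, if_neg (fun h' => h ((adj_comm G u v).mpr h'))]

lemma not_adj_self (u : V) : ¬ G.adj u u := by
  rintro (h | h) <;> exact G.asymm u u h h

lemma o_le_one (u v : V) : o G u v ≤ 1 := by unfold o; split_ifs <;> norm_num

open Classical in
lemma one_sub_nn (u v : V) : 1 - nn G u v = if G.adj u v then 1 else 0 := by
  unfold nn; split_ifs <;> norm_num

variable (w : V → ℝ) (hw : ∀ v, 0 ≤ w v)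

include hw

lemma yo_le (B : Finset V) (a : V) : yo G w B a ≤ ∑ v ∈ B, w v := by
  unfold yo
  refine Finset.sum_le_sum fun v _ => mul_le_of_le_one_right (hw v) (o_le_one G a v)

lemma dI_nonneg (A : Finset V) : 0 ≤ dI G w A :=
  Finset.sum_nonneg fun u _ => Finset.sum_nonneg fun v _ =>
    mul_nonneg (mul_nonneg (hw u) (hw v)) (by linarith [nn_le_one G u v])

lemma dM_nonneg (A B : Finset V) : 0 ≤ dM G w A B :=
  Finset.sum_nonneg fun u _ => Finset.sum_nonneg fun v _ =>
    mul_nonneg (mul_nonneg (hw u) (hw v)) (nn_nonneg G u v)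

omit hw in
lemma dM_symm (A B : Finset V) : dM G w A B = dM G w B A := by
  unfold dM
  rw [Finset.sum_comm]
  refine Finset.sum_congr rfl fun u _ => Finset.sum_congr rfl fun v _ => ?_
  rw [nn_symm G v u]
  ring

end basic

/-- the lexicographic order -/
@[reducible] noncomputable def lexOrder {V : Type} [Fintype V] (k : V → ℝ) : LinearOrder V :=
  LinearOrder.lift' (fun v => toLex (k v, Fintype.equivFin V v)) (by
    intro u v h
    have h1 := congrArg (fun z => (ofLex z).2) h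
    exact (Fintype.equivFin V).injective h1)

lemma lex_le {V : Type} [Fintype V] (k : V → ℝ) (u v : V)
    (h : @LE.le V (lexOrder k).toLE u v) : k u ≤ k v := by
  have h1 : toLex (k u, Fintype.equivFin V u) ≤ toLex (k v, Fintype.equivFin V v) := h
  rcases Prod.Lex.toLex_le_toLex.mp h1 with h2 | h2
  · exact h2.le
  · exact h2.1.le

theorem core (h : S_R1) {V : Type} [Fintype V] (G : OG V) (w : V → ℝ) (hN : NoC4 G)
    (hw : ∀ v, 0 ≤ w v) (A B : Finset V) (τ : ℝ) (hdisj : Disjoint A B) (hA : A.Nonempty)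
    (hB : B.Nonempty) (hτ : 0 < τ) (h1 : ∀ a ∈ A, τ ≤ yo G w B a)
    (h2 : ∀ v ∈ B, τ ≤ yo G w A v) (hle : dI G w B ≤ dI G w A)
    (hc : dI G w A + dI G w B + 4 * dM G w A B < τ ^ 2 / 2) : False := by
  classical
  let _ : LinearOrder V := lexOrder (yo G w A)
  have hdA := dI_nonneg G w hw A
  have hdB := dI_nonneg G w hw B
  have hdM := dM_nonneg G w hw A B
  set s := √(dI G w B + 4 * dM G w A B) with hs
  have hs0 : 0 ≤ s := Real.sqrt_nonneg _
  have hs2 : s ^ 2 = dI G w B + 4 * dM G w A B := Real.sq_sqrt (by linarith)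
  have hsτ : s < τ := by
    refine lt_of_pow_lt_pow_left₀ 2 hτ.le ?_
    rw [hs2]
    nlinarith
  have hτB : τ ≤ ∑ v ∈ B, w v := by
    obtain ⟨a, ha⟩ := hA
    exact (h1 a ha).trans (yo_le G w hw B a)
  set m : V → ℝ := fun b => ∑ a ∈ A, w a * nn G b a with hm
  have hm0 : ∀ b, 0 ≤ m b := fun b => Finset.sum_nonneg fun a _ =>
    mul_nonneg (hw a) (nn_nonneg G b a)
  set E : V → Finset V := fun b => B.filter (fun v => b < v ∧ G.adj b v) with hE
  set f : V → ℝ := fun b => ∑ v ∈ E b, w v + 2 * m b with hf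
  have hf0 : ∀ v ∈ B, 0 ≤ f v := fun v _ =>
    add_nonneg (Finset.sum_nonneg fun u _ => hw u) (mul_nonneg zero_le_two (hm0 v))
  have hEsum : ∀ b, ∑ v ∈ E b, w v =
      ∑ v ∈ B.filter (fun v => b < v), w v * (1 - nn G b v) := by
    intro b
    simp only [hE]
    rw [Finset.sum_filter, Finset.sum_filter]
    refine Finset.sum_congr rfl fun v _ => ?_
    rw [one_sub_nn]
    by_cases hbv : b < v
    · by_cases hadj : G.adj b v
      · simp [hbv, hadj]
      · simp [hbv, hadj]
    · simp [hbv]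
  have hT : ∑ b ∈ B, w b * ∑ v ∈ E b, w v ≤ dI G w B / 2 := by
    have h3 := half_sum B w hw (fun u v => 1 - nn G u v)
      (fun u v => by linarith [nn_le_one G u v])
      (fun u v => by rw [nn_symm])
    simp_rw [hEsum]
    have h4 : ∑ b ∈ B, ∑ v ∈ B, w b * w v * (1 - nn G b v) = dI G w B := rfl
    linarith
  have hMsum : ∑ b ∈ B, w b * m b = dM G w A B := by
    rw [dM_symm]
    unfold dM
    refine Finset.sum_congr rfl fun b _ => ?_
    rw [hm, Finset.mul_sum]
    refine Finset.sum_congr rfl fun a _ => ?_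
    ring
  have hsum : ∑ b ∈ B, w b * f b ≤ s ^ 2 / 2 := by
    have h3 : ∑ b ∈ B, w b * f b = ∑ b ∈ B, w b * ∑ v ∈ E b, w v + 2 * ∑ b ∈ B, w b * m b := by
      rw [Finset.mul_sum, ← Finset.sum_add_distrib]
      refine Finset.sum_congr rfl fun b _ => ?_
      simp only [hf]
      ring
    rw [h3, hMsum, hs2]
    linarith
  obtain ⟨b0, hb0, hb0s⟩ := exists_b0 B w f hw hf0 s hs0 (by linarith) hsum hB
  set L : Finset V := B.filter (fun v => v < b0) ∪ E b0 with hL
  have hLB : L ⊆ B := Finset.union_subset (Finset.filter_subset _ _) (Finset.filter_subset _ _)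
  have hLsum : ∑ v ∈ L, w v ≤ ∑ v ∈ B.filter (fun v => v < b0), w v + ∑ v ∈ E b0, w v := by
    rw [hL, ← Finset.sum_union_inter]
    have : 0 ≤ ∑ v ∈ B.filter (fun v => v < b0) ∩ E b0, w v :=
      Finset.sum_nonneg fun v _ => hw v
    linarith
  have hts : ∑ v ∈ L, w v + 2 * m b0 ≤ s := by
    have : f b0 = ∑ v ∈ E b0, w v + 2 * m b0 := rfl
    linarith
  have ht0 : 0 ≤ ∑ v ∈ L, w v := Finset.sum_nonneg fun v _ => hw v
  have hmb0 := hm0 b0
  have hR := h V G w hN hw A B L b0 τ hdisj hLB hτ h1 (h2 b0 hb0) (by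
    intro v hv hvL
    have hv1 : b0 ≤ v := by
      by_contra hlt
      exact hvL (Finset.mem_union_left _ (Finset.mem_filter.mpr ⟨hv, not_le.mp hlt⟩))
    refine ⟨?_, lex_le (yo G w A) b0 v hv1⟩
    rcases hv1.eq_or_lt with heq | hlt
    · rw [← heq]
      exact not_adj_self G b0
    · intro hadj
      exact hvL (Finset.mem_union_right _ (Finset.mem_filter.mpr ⟨hv, hlt, hadj⟩))) (by linarith)
  -- scaling
  set t := ∑ v ∈ L, w v with ht
  have hmm : ∑ a ∈ A, w a * nn G b0 a = m b0 := rfl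
  rw [hmm] at hR
  have hτ2 : 0 < τ ^ 2 := by positivity
  refine real_fin (dI G w A / τ ^ 2) (dI G w B / τ ^ 2) (s / τ) (t / τ) (2 * m b0 / τ)
    (by positivity) (by positivity) ?_ ?_ (by positivity) ?_ ?_ ?_
  · rw [← add_div]
    exact div_le_div_of_nonneg_right hts hτ.le
  · exact div_le_div_of_nonneg_right hle hτ2.le
  · rw [div_pow]
    refine div_le_div_of_nonneg_right ?_ hτ2.le
    rw [hs2]
    linarith
  · rw [div_pow, ← add_div, div_lt_iff₀ hτ2, hs2]
    linarith
  · have e1 : (1 - t / τ) ^ 2 = (τ - t) ^ 2 / τ ^ 2 := by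
      rw [← div_pow, sub_div, div_self hτ.ne']
    rw [e1, div_mul_eq_mul_div, div_right_comm]
    exact div_le_div_of_nonneg_right hR hτ2.le

/-- **R2.** -/
theorem r2 (h : S_R1) : S_R2 := by
  intro V _ G w hN hw A B τ hdisj hA hτ h1 h2
  by_contra hcon
  push Not at hcon
  have hB : B.Nonempty := by
    by_contra hne
    rw [Finset.not_nonempty_iff_eq_empty] at hne
    obtain ⟨a, ha⟩ := hA
    have h3 := h1 a ha
    rw [hne] at h3
    simp only [yo, Finset.sum_empty] at h3
    linarith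
  rcases le_total (dI G w B) (dI G w A) with hle | hle
  · exact core h G w hN hw A B τ hdisj hA hB hτ h1 h2 hle hcon
  · refine core h G w hN hw B A τ hdisj.symm hB hA hτ h2 h1 hle ?_
    rw [dM_symm G w B A]
    linarith

end Pool.Agent.W540.FF
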